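import Pool.Agent.TH785.LT.Main

/-!
# The ccc members of `𝒞` under Baumgartner's axiom and Suslin's hypothesis
-/

set_option autoImplicit false

namespace Pool.Agent.TH785.LT

open Cardinal Set

/-- an `ℵ₁`-dense set of reals exists -/
theorem exists_dense : ∃ X : Set ℝ, ∀ a b : ℝ, a < b → #↥(X ∩ Ioo a b) = ℵ₁ := by
  classical
  have h1 : ∀ p : ℚ × ℚ, ∃ Y : Set ℝ, p.1 < p.2 → Y ⊆ Ioo (p.1 : ℝ) p.2 ∧ #Y = ℵ₁ := by
    intro p
    by_cases hp : p.1 < p.2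
    · have h2 : ℵ₁ ≤ #(Ioo (p.1 : ℝ) p.2) := by
        rw [Cardinal.mk_Ioo_real (by exact_mod_cast hp)]
        exact aleph_one_le_continuum
      obtain ⟨Y, hY, hY'⟩ := Cardinal.le_mk_iff_exists_subset.1 h2
      exact ⟨Y, fun _ => ⟨hY, hY'⟩⟩
    · exact ⟨∅, fun h => absurd h hp⟩
  choose Y hY using h1
  let X : Set ℝ := ⋃ p : ℚ × ℚ, if p.1 < p.2 then Y p else ∅
  have hX : #X ≤ ℵ₁ := by
    refine (Cardinal.mk_iUnion_le _).trans ?_
    have h2 : #(ℚ × ℚ) ≤ ℵ₁ := (Cardinal.mk_le_aleph0 (α := ℚ × ℚ)).trans aleph0_lt_aleph_one.le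
    have h3 : (⨆ p : ℚ × ℚ, #↥(if p.1 < p.2 then Y p else ∅ : Set ℝ)) ≤ ℵ₁ := by
      refine ciSup_le' fun p => ?_
      by_cases hp : p.1 < p.2
      · rw [if_pos hp]
        exact (hY p hp).2.le
      · rw [if_neg hp]
        simp
    exact (mul_le_mul' h2 h3).trans (Cardinal.mul_eq_self aleph0_lt_aleph_one.le).le
  refine ⟨X, fun a b hab => le_antisymm ((Cardinal.mk_le_mk_of_subset inter_subset_left).trans hX) ?_⟩
  obtain ⟨q, hq1, hq2⟩ := exists_rat_btwn hab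
  obtain ⟨r, hr1, hr2⟩ := exists_rat_btwn hq2
  have hqr : q < r := by exact_mod_cast hr1
  obtain ⟨h2, h3⟩ := hY (q, r) hqr
  rw [← h3]
  apply Cardinal.mk_le_mk_of_subset
  intro x hx
  refine ⟨mem_iUnion.2 ⟨(q, r), ?_⟩, hq1.trans (h2 hx).1, (h2 hx).2.trans hr2⟩
  rw [if_pos hqr]
  exact hx

section

variable {X : Set ℝ} (hX : ∀ a b : ℝ, a < b → #↥(X ∩ Ioo a b) = ℵ₁)

include hX

theorem dense_between {a b : ℝ} (hab : a < b) : ∃ x ∈ X, a < x ∧ x < b := by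
  have h : (X ∩ Ioo a b).Nonempty := by
    rw [← Set.nonempty_coe_sort, ← Cardinal.mk_ne_zero_iff, hX a b hab]
    exact (aleph_pos 1).ne'
  obtain ⟨x, hx1, hx2⟩ := h
  exact ⟨x, hx1, hx2⟩

theorem dense_inC : InC (LinOrd.of X) := by
  have hseq : ∀ (x y : ℝ), y < x → ∃ s : ℕ → X, StrictMono s ∧ (∀ n, (s n : ℝ) < x) ∧
      ∀ z < x, ∃ n, z < (s n : ℝ) := by
    intro x y hyx
    obtain ⟨u, hu1, hu2, hu3⟩ := exists_seq_strictMono_tendsto' hyx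
    have h1 : ∀ n, ∃ t : X, u n < t ∧ (t : ℝ) < u (n + 1) := fun n => by
      obtain ⟨t, ht, h⟩ := dense_between hX (hu1 (Nat.lt_succ_self n))
      exact ⟨⟨t, ht⟩, h⟩
    choose s hs using h1
    refine ⟨s, strictMono_nat_of_lt_succ fun n => ?_, fun n => (hs n).2.trans (hu2 _).2,
      fun z hz => ?_⟩
    · exact (show (s n : ℝ) < s (n + 1) from (hs n).2.trans (hs (n + 1)).1)
    · obtain ⟨n, hn⟩ := (hu3.eventually (lt_mem_nhds hz)).exists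
      exact ⟨n, hn.trans (hs n).1⟩
  have hseq' : ∀ (x y : ℝ), x < y → ∃ s : ℕ → X, StrictAnti s ∧ (∀ n, x < (s n : ℝ)) ∧
      ∀ z, x < z → ∃ n, (s n : ℝ) < z := by
    intro x y hyx
    obtain ⟨u, hu1, hu2, hu3⟩ := exists_seq_strictAnti_tendsto' hyx
    have h1 : ∀ n, ∃ t : X, u (n + 1) < t ∧ (t : ℝ) < u n := fun n => by
      obtain ⟨t, ht, h⟩ := dense_between hX (hu1 (Nat.lt_succ_self n))
      exact ⟨⟨t, ht⟩, h⟩
    choose s hs using h1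
    refine ⟨s, strictAnti_nat_of_succ_lt fun n => ?_, fun n => (hu2 _).1.trans (hs n).1,
      fun z hz => ?_⟩
    · exact (show (s (n + 1) : ℝ) < s n from (hs (n + 1)).2.trans (hs n).1)
    · obtain ⟨n, hn⟩ := (hu3.eventually (gt_mem_nhds hz)).exists
      exact ⟨n, (hs n).2.trans hn⟩
  refine ⟨?_, ?_, ?_, ?_⟩
  · obtain ⟨x, hx, -⟩ := dense_between hX zero_lt_one
    obtain ⟨y, hy, h, -⟩ := dense_between hX (lt_add_one x)
    exact ⟨⟨x, hx⟩, ⟨y, hy⟩, h⟩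
  · rintro ⟨a, ha⟩ ⟨b, hb⟩ hab
    have hab' : a < b := hab
    rw [← hX a b hab']
    exact Cardinal.mk_congr ⟨fun x => ⟨x.1.1, x.1.2, x.2.1, x.2.2⟩,
      fun x => ⟨⟨x.1, x.2.1⟩, x.2.2.1, x.2.2.2⟩, fun x => rfl, fun x => rfl⟩
  · rintro ⟨x, hx⟩ ⟨y, hy⟩
    obtain ⟨s, h1, h2, h3⟩ := hseq x y hy
    refine ⟨s, h1, ?_, ?_⟩
    · rintro _ ⟨n, rfl⟩
      exact (h2 n).le
    · intro z hz
      by_contra hcon
      push Not at hcon
      obtain ⟨n, hn⟩ := h3 z hcon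
      exact absurd (hz ⟨n, rfl⟩) (not_le.2 hn)
  · rintro ⟨x, hx⟩ ⟨y, hy⟩
    obtain ⟨s, h1, h2, h3⟩ := hseq' x y hy
    refine ⟨s, h1, ?_, ?_⟩
    · rintro _ ⟨n, rfl⟩
      exact (h2 n).le
    · intro z hz
      by_contra hcon
      push Not at hcon
      obtain ⟨n, hn⟩ := h3 z hcon
      exact absurd (hz ⟨n, rfl⟩) (not_le.2 hn)

theorem set_ccc : CCC (LinOrd.of X) := by
  intro F hF hd
  have h1 : ∀ p : F, ∃ q : ℚ, ((p.1.1 : X) : ℝ) < q ∧ (q : ℝ) < ((p.1.2 : X) : ℝ) := by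
    intro p
    obtain ⟨c, hc⟩ := hF p.1 p.2
    have h2 : ((p.1.1 : X) : ℝ) < ((c : X) : ℝ) := hc.1
    have h3 : ((c : X) : ℝ) < ((p.1.2 : X) : ℝ) := hc.2
    exact exists_rat_btwn (h2.trans h3)
  choose q hq using h1
  have h2 : Function.Injective q := by
    intro p r hpr
    by_contra hne
    have h3 : Disjoint (Ioo p.1.1 p.1.2) (Ioo r.1.1 r.1.2) :=
      hd p.2 r.2 (fun h => hne (Subtype.ext h))
    have e1 := hq p
    have e2 := hq r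
    rw [← hpr] at e2
    obtain ⟨c, hc, hc1, hc2⟩ := dense_between hX
      (max_lt (lt_min (e1.1.trans e1.2) (e1.1.trans e2.2)) (lt_min (e2.1.trans e1.2)
        (e2.1.trans e2.2)))
    have h4 := Set.disjoint_left.1 h3
    exact @h4 ⟨c, hc⟩ ⟨(le_max_left _ _).trans_lt hc1, hc2.trans_le (min_le_left _ _)⟩
      ⟨(le_max_right _ _).trans_lt hc1, hc2.trans_le (min_le_right _ _)⟩
  have : Countable F := h2.countable
  exact Set.countable_coe_iff.1 this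

end

/-- A dense linear order without end points with a countable order dense subset whose intervals have
size `ℵ₁` is isomorphic to an `ℵ₁`-dense set of reals. -/
theorem separable_iso {T : LinOrd.{0}} (hT : InC T) (hmin : NoMinOrder T) (hmax : NoMaxOrder T)
    (hcard : #T ≤ ℵ₁) {Q : Set T} (hQ : Q.Countable) (hQ' : ∀ a b : T, a < b → ∃ d ∈ Q, a < d ∧ d < b) :
    ∃ Y : Set ℝ, (∀ a b : ℝ, a < b → #↥(Y ∩ Ioo a b) = ℵ₁) ∧ Nonempty (T ≃o Y) := by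
  classical
  obtain ⟨t0, -, -⟩ := hT.two
  have i1 : Countable Q := hQ.to_subtype
  have i2 : DenselyOrdered Q := ⟨fun a b hab => by
    obtain ⟨d, hd, h1, h2⟩ := hQ' a b hab
    exact ⟨⟨d, hd⟩, h1, h2⟩⟩
  have i3 : NoMinOrder Q := ⟨fun a => by
    obtain ⟨b, hb⟩ := exists_lt (a : T)
    obtain ⟨d, hd, h1, h2⟩ := hQ' b a hb
    exact ⟨⟨d, hd⟩, h2⟩⟩
  have i4 : NoMaxOrder Q := ⟨fun a => by
    obtain ⟨b, hb⟩ := exists_gt (a : T)
    obtain ⟨d, hd, h1, h2⟩ := hQ' a b hb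
    exact ⟨⟨d, hd⟩, h1⟩⟩
  have i5 : Nonempty Q := by
    obtain ⟨b, hb⟩ := exists_gt t0
    obtain ⟨d, hd, -, -⟩ := hQ' t0 b hb
    exact ⟨⟨d, hd⟩⟩
  obtain ⟨φ⟩ := Order.iso_of_countable_dense Q ℚ
  let V : T → Set ℝ := fun x => {r | ∃ q : Q, (q : T) < x ∧ r = (φ q : ℝ)}
  have hbdd : ∀ (x : T) (q : Q), x ≤ q → ∀ r ∈ V x, r ≤ (φ q : ℝ) := by
    rintro x q hxq r ⟨q', hq', rfl⟩
    have h1 : q' < q := hq'.trans_le hxq
    exact_mod_cast (φ.lt_iff_lt.2 h1).le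
  have hB : ∀ x, BddAbove (V x) := by
    intro x
    obtain ⟨b, hb⟩ := exists_gt x
    obtain ⟨d, hd, h1, h2⟩ := hQ' x b hb
    exact ⟨_, hbdd x ⟨d, hd⟩ h1.le⟩
  have hN : ∀ x, (V x).Nonempty := by
    intro x
    obtain ⟨b, hb⟩ := exists_lt x
    obtain ⟨d, hd, h1, h2⟩ := hQ' b x hb
    exact ⟨_, ⟨d, hd⟩, h2, rfl⟩
  let g : T → ℝ := fun x => sSup (V x)
  have g1 : ∀ (x : T) (q : Q), (q : T) < x → (φ q : ℝ) ≤ g x := fun x q hq =>
    le_csSup (hB x) ⟨q, hq, rfl⟩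
  have g2 : ∀ (x : T) (q : Q), x ≤ q → g x ≤ (φ q : ℝ) := fun x q hq =>
    csSup_le (hN x) (hbdd x q hq)
  have hg : StrictMono g := by
    intro x y hxy
    obtain ⟨d, hd, h1, h2⟩ := hQ' x y hxy
    obtain ⟨e, he, h3, h4⟩ := hQ' d y h2
    have h5 : (φ ⟨d, hd⟩ : ℝ) < (φ ⟨e, he⟩ : ℝ) := by
      exact_mod_cast φ.lt_iff_lt.2 (show (⟨d, hd⟩ : Q) < ⟨e, he⟩ from h3)
    exact (g2 x ⟨d, hd⟩ h1.le).trans_lt (h5.trans_le (g1 y ⟨e, he⟩ h4))
  refine ⟨range g, fun a b hab => le_antisymm ?_ ?_, ⟨hg.orderIso⟩⟩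
  · exact ((Cardinal.mk_le_mk_of_subset inter_subset_left).trans Cardinal.mk_range_le).trans hcard
  · obtain ⟨r, hr1, hr2⟩ := exists_rat_btwn hab
    obtain ⟨s, hs1, hs2⟩ := exists_rat_btwn hr2
    have hrs : r < s := by exact_mod_cast hs1
    have h1 : (φ.symm r : T) < φ.symm s := φ.symm.lt_iff_lt.2 hrs
    rw [← hT.dense _ _ h1]
    refine Cardinal.mk_le_of_injective (f := fun x => (⟨g x.1, ⟨x.1, rfl⟩, ?_, ?_⟩ :
      ↥(range g ∩ Ioo a b))) ?_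
    · have := g1 x.1 (φ.symm r) x.2.1
      rw [φ.apply_symm_apply] at this
      exact hr1.trans_le this
    · have := g2 x.1 (φ.symm s) x.2.2.le
      rw [φ.apply_symm_apply] at this
      exact this.trans_lt hs2
    · intro x y hxy
      exact Subtype.ext (hg.injective (congrArg Subtype.val hxy))

/-- Under Baumgartner's axiom and Suslin's hypothesis the ccc members of `𝒞` have a basis with one
element. -/
theorem ccc_basis (hBA : BaumgartnerAxiom) (hSH : SuslinHypothesis) :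
    HasBasis 1 (fun L => InC L ∧ CCC L) LOTSEmbeds := by
  classical
  obtain ⟨X, hX⟩ := exists_dense
  refine ⟨fun _ => LinOrd.of X, fun _ => ⟨dense_inC hX, set_ccc hX⟩, fun L hL => ⟨0, ?_⟩⟩
  obtain ⟨hL, hc⟩ := hL
  obtain ⟨u, v, huv⟩ := hL.two
  have hT : InC (LinOrd.of (Ioo u v)) := hL.Ioo_inC huv
  have hTc : CCC (LinOrd.of (Ioo u v)) := hT.ccc_of_strictMono hc (f := fun x => x.1) (fun _ _ h => h)
  have i1 : DenselyOrdered (LinOrd.of (Ioo u v)) := hT.denselyOrdered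
  have i2 : NoMinOrder (LinOrd.of (Ioo u v)) := ⟨fun a => by
    obtain ⟨b, h1, h2⟩ := hL.between a.2.1
    exact ⟨⟨b, h1, h2.trans a.2.2⟩, h2⟩⟩
  have i3 : NoMaxOrder (LinOrd.of (Ioo u v)) := ⟨fun a => by
    obtain ⟨b, h1, h2⟩ := hL.between a.2.2
    exact ⟨⟨b, a.2.1.trans h1, h2⟩, h1⟩⟩
  obtain ⟨Q, hQ, hQ'⟩ := hSH _ i1 i2 i3 hTc
  obtain ⟨Y, hY, ⟨ψ⟩⟩ := separable_iso hT i2 i3 (hL.dense u v huv).le hQ hQ'
  obtain ⟨χ⟩ := hBA X Y hX hY
  let f : X → L := fun x => (ψ.symm (χ x)).1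
  have hf : StrictMono f := fun a b hab => (ψ.symm.strictMono (χ.strictMono hab))
  refine ⟨f, hL.lots_of_range (u := u) (v := v) hf ?_⟩
  ext y
  constructor
  · rintro ⟨x, rfl⟩
    exact (ψ.symm (χ x)).2
  · intro hy
    exact ⟨χ.symm (ψ ⟨y, hy⟩), by simp [f]⟩

/-- The ccc members of `𝒞` have a basis with `n` elements if `𝒞` has one. -/
theorem ccc_basis_of_basis {n : ℕ} (h : HasBasis n InC LOTSEmbeds) :
    HasBasis n (fun L => InC L ∧ CCC L) LOTSEmbeds := by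
  classical
  obtain ⟨B, hB, hB'⟩ := h
  obtain ⟨X, hX⟩ := exists_dense
  refine ⟨fun i => if CCC (B i) then B i else LinOrd.of X, fun i => ?_, fun L hL => ?_⟩
  · by_cases hc : CCC (B i)
    · simp only [if_pos hc]
      exact ⟨hB i, hc⟩
    · simp only [if_neg hc]
      exact ⟨dense_inC hX, set_ccc hX⟩
  · obtain ⟨i, hi⟩ := hB' L hL.1
    refine ⟨i, ?_⟩
    obtain ⟨f, hf⟩ := id hi
    have hc : CCC (B i) := (hB i).ccc_of_strictMono hL.2 hf.1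
    simp only [hc, if_true]
    exact hi

end Pool.Agent.TH785.LT
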