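import Pool.Agent.TH785.LT.Defs

/-! # Basic facts on LOTS embeddings -/

set_option autoImplicit false

namespace Pool.Agent.TH785.LT

open Cardinal Set

/-- a criterion for LOTS embeddings -/
theorem lots_of_between {A B : Type} [LinearOrder A] [LinearOrder B] {f : A → B}
    (hf : StrictMono f) (h1 : ∀ x, ∀ b < f x, ∃ c, c < x ∧ b < f c)
    (h2 : ∀ x, ∀ b, f x < b → ∃ c, x < c ∧ f c < b) : IsLOTSEmbedding f := by
  refine ⟨hf, ?_⟩
  letI : TopologicalSpace A := Preorder.topology A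
  letI : TopologicalSpace B := Preorder.topology B
  haveI : OrderTopology A := ⟨rfl⟩
  haveI : OrderTopology B := ⟨rfl⟩
  rw [continuous_iff_continuousAt]
  intro x
  refine continuousAt_of_monotoneOn_of_exists_between (s := univ) (hf.monotone.monotoneOn _)
    Filter.univ_mem ?_ ?_
  · intro b hb
    obtain ⟨c, hc, h⟩ := h1 x b hb
    exact ⟨c, mem_univ _, h, hf hc⟩
  · intro b hb
    obtain ⟨c, hc, h⟩ := h2 x b hb
    exact ⟨c, mem_univ _, hf hc, h⟩

theorem LOTSEmbeds.trans {A B C : LinOrd.{0}} (h1 : LOTSEmbeds A B) (h2 : LOTSEmbeds B C) :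
    LOTSEmbeds A C := by
  obtain ⟨f, hf, hf'⟩ := h1
  obtain ⟨g, hg, hg'⟩ := h2
  refine ⟨g ∘ f, hg.comp hf, ?_⟩
  letI : TopologicalSpace A := Preorder.topology A
  letI : TopologicalSpace B := Preorder.topology B
  letI : TopologicalSpace C := Preorder.topology C
  exact hg'.comp hf'

namespace InC

variable {L : LinOrd.{0}} (hL : InC L)

include hL

theorem between {a b : L} (hab : a < b) : ∃ c, a < c ∧ c < b := by
  have h := hL.dense a b hab
  have h1 : (Ioo a b).Nonempty := by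
    rw [← Set.nonempty_coe_sort, ← Cardinal.mk_ne_zero_iff, h]
    exact (aleph_pos 1).ne'
  obtain ⟨c, hc⟩ := h1
  exact ⟨c, hc⟩

theorem denselyOrdered : DenselyOrdered L := ⟨fun _ _ h => hL.between h⟩

/-- a strictly increasing sequence with supremum `x` above a given point -/
theorem seq_up {y x : L} (h : y < x) :
    ∃ s : ℕ → L, StrictMono s ∧ IsLUB (range s) x ∧ (∀ n, y < s n) ∧ ∀ n, s n < x := by
  obtain ⟨s, hs, hx⟩ := hL.cof x ⟨y, h⟩
  have h1 : ∃ N, y < s N := by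
    by_contra hcon
    push Not at hcon
    exact absurd (hx.2 (by rintro _ ⟨n, rfl⟩; exact hcon n)) (not_le.2 h)
  obtain ⟨N, hN⟩ := h1
  have hlt : ∀ n, s n < x := fun n => (hs (Nat.lt_succ_self n)).trans_le (hx.1 ⟨n + 1, rfl⟩)
  refine ⟨fun n => s (N + n), fun a b hab => hs (by omega), ⟨?_, ?_⟩, ?_, fun n => hlt _⟩
  · rintro _ ⟨n, rfl⟩
    exact (hlt _).le
  · intro z hz
    refine hx.2 ?_
    rintro _ ⟨n, rfl⟩
    exact (hs.monotone (by omega : n ≤ N + n)).trans (hz ⟨n, rfl⟩)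
  · intro n
    exact hN.trans_le (hs.monotone (by omega))

/-- a strictly decreasing sequence with infimum `x` below a given point -/
theorem seq_down {x y : L} (h : x < y) :
    ∃ s : ℕ → L, StrictAnti s ∧ IsGLB (range s) x ∧ (∀ n, s n < y) ∧ ∀ n, x < s n := by
  obtain ⟨s, hs, hx⟩ := hL.coinit x ⟨y, h⟩
  have h1 : ∃ N, s N < y := by
    by_contra hcon
    push Not at hcon
    exact absurd (hx.2 (by rintro _ ⟨n, rfl⟩; exact hcon n)) (not_le.2 h)
  obtain ⟨N, hN⟩ := h1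
  have hlt : ∀ n, x < s n := fun n => (hx.1 ⟨n + 1, rfl⟩).trans_lt (hs (Nat.lt_succ_self n))
  refine ⟨fun n => s (N + n), fun a b hab => hs (by omega), ⟨?_, ?_⟩, ?_, fun n => hlt _⟩
  · rintro _ ⟨n, rfl⟩
    exact (hlt _).le
  · intro z hz
    refine hx.2 ?_
    rintro _ ⟨n, rfl⟩
    exact (hz ⟨n, rfl⟩).trans (hs.antitone (by omega : n ≤ N + n))
  · intro n
    exact (hs.antitone (by omega : N ≤ N + n)).trans_lt hN

/-- open intervals of members of `𝒞` are in `𝒞` -/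
theorem Ioo_inC {u v : L} (huv : u < v) : InC (LinOrd.of (Ioo u v)) := by
  obtain ⟨c, hc1, hc2⟩ := hL.between huv
  obtain ⟨d, hd1, hd2⟩ := hL.between hc2
  refine ⟨⟨⟨c, hc1, hc2⟩, ⟨d, hc1.trans hd1, hd2⟩, hd1⟩, ?_, ?_, ?_⟩
  · rintro ⟨a, ha⟩ ⟨b, hb⟩ hab
    have hab' : a < b := hab
    rw [← hL.dense a b hab']
    refine Cardinal.mk_congr ⟨fun x => ⟨x.1.1, x.2.1, x.2.2⟩,
      fun x => ⟨⟨x.1, ha.1.trans x.2.1, x.2.2.trans hb.2⟩, x.2.1, x.2.2⟩, fun x => rfl, fun x => rfl⟩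
  · rintro ⟨x, hx⟩ -
    obtain ⟨s, h1, h2, h3, h4⟩ := hL.seq_up hx.1
    refine ⟨fun n => ⟨s n, h3 n, (h4 n).trans hx.2⟩, fun a b hab => h1 hab, ?_, ?_⟩
    · rintro _ ⟨n, rfl⟩
      exact (h4 n).le
    · intro z hz
      refine h2.2 ?_
      rintro _ ⟨n, rfl⟩
      exact hz ⟨n, rfl⟩
  · rintro ⟨x, hx⟩ -
    obtain ⟨s, h1, h2, h3, h4⟩ := hL.seq_down hx.2
    refine ⟨fun n => ⟨s n, hx.1.trans (h4 n), h3 n⟩, fun a b hab => h1 hab, ?_, ?_⟩
    · rintro _ ⟨n, rfl⟩
      exact (h4 n).le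
    · intro z hz
      refine h2.2 ?_
      rintro _ ⟨n, rfl⟩
      exact hz ⟨n, rfl⟩

/-- a strictly monotone map onto an open interval is a LOTS embedding -/
theorem lots_of_range {A : Type} [LinearOrder A] {u v : L} {f : A → L} (hf : StrictMono f)
    (hr : range f = Ioo u v) : IsLOTSEmbedding f := by
  refine lots_of_between hf ?_ ?_
  · intro x b hb
    have hx : f x ∈ Ioo u v := hr ▸ mem_range_self x
    obtain ⟨c, hc1, hc2⟩ := hL.between (max_lt hb hx.1)
    have hc : c ∈ Ioo u v := ⟨(le_max_right _ _).trans_lt hc1, hc2.trans hx.2⟩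
    rw [← hr] at hc
    obtain ⟨c', rfl⟩ := hc
    exact ⟨c', hf.lt_iff_lt.1 hc2, (le_max_left _ _).trans_lt hc1⟩
  · intro x b hb
    have hx : f x ∈ Ioo u v := hr ▸ mem_range_self x
    obtain ⟨c, hc1, hc2⟩ := hL.between (lt_min hb hx.2)
    have hc : c ∈ Ioo u v := ⟨hx.1.trans hc1, hc2.trans_le (min_le_right _ _)⟩
    rw [← hr] at hc
    obtain ⟨c', rfl⟩ := hc
    exact ⟨c', hf.lt_iff_lt.1 hc1, hc2.trans_le (min_le_left _ _)⟩

theorem Ioo_embeds {u v : L} : LOTSEmbeds (LinOrd.of (Ioo u v)) L :=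
  ⟨fun x => x.1, hL.lots_of_range (u := u) (v := v) (fun _ _ h => h) Subtype.range_coe⟩

/-- a member of `𝒞` which embeds in a ccc order is ccc -/
theorem ccc_of_strictMono {M : LinOrd.{0}} (hM : CCC M) {f : L → M} (hf : StrictMono f) : CCC L := by
  intro F hF hd
  have h1 : ∀ p ∈ F, p.1 < p.2 := fun p hp => by
    obtain ⟨c, hc⟩ := hF p hp
    exact hc.1.trans hc.2
  have h2 : ((fun p : L × L => (f p.1, f p.2)) '' F).Countable := by
    refine hM _ ?_ ?_
    · rintro _ ⟨p, hp, rfl⟩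
      obtain ⟨c, hc⟩ := hF p hp
      exact ⟨f c, hf hc.1, hf hc.2⟩
    · rintro _ ⟨p, hp, rfl⟩ _ ⟨q, hq, rfl⟩ hne
      have hpq : p ≠ q := by rintro rfl; exact hne rfl
      have h3 : Disjoint (Ioo p.1 p.2) (Ioo q.1 q.2) := hd hp hq hpq
      have h4 : p.2 ≤ q.1 ∨ q.2 ≤ p.1 := by
        by_contra hcon
        push Not at hcon
        have h5 : max p.1 q.1 < min p.2 q.2 :=
          max_lt (lt_min (h1 p hp) hcon.2) (lt_min hcon.1 (h1 q hq))
        obtain ⟨c, hc1, hc2⟩ := hL.between h5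
        exact Set.disjoint_left.1 h3
          ⟨(le_max_left _ _).trans_lt hc1, hc2.trans_le (min_le_left _ _)⟩
          ⟨(le_max_right _ _).trans_lt hc1, hc2.trans_le (min_le_right _ _)⟩
      show Disjoint (Ioo (f p.1) (f p.2)) (Ioo (f q.1) (f q.2))
      rw [Set.disjoint_left]
      rintro x ⟨hx1, hx2⟩ ⟨hx3, hx4⟩
      rcases h4 with h4 | h4
      · exact absurd (hx3.trans hx2) (not_lt.2 (hf.monotone h4))
      · exact absurd (hx1.trans hx4) (not_lt.2 (hf.monotone h4))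
  refine countable_of_injective_of_countable_image ?_ h2
  intro p _ q _ hpq
  simp only [Prod.mk.injEq] at hpq
  exact Prod.ext (hf.injective hpq.1) (hf.injective hpq.2)

end InC

end Pool.Agent.TH785.LT
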