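import Mathlib

/-!
# Linearly ordered topological spaces: the class of `ℵ₁`-dense LOTS of countable character

The linear orders are the objects of `LinOrd.{0}` (types with a linear order); the interval
topology is Mathlib's `Preorder.topology`, generated by the open rays.
-/

set_option autoImplicit false

namespace Pool.Agent.TH785.LT

open Cardinal Set

/-- `f` is a LOTS embedding: order preserving, injective and continuous for the interval
topologies. -/
def IsLOTSEmbedding {A B : Type} [LinearOrder A] [LinearOrder B] (f : A → B) : Prop :=
  StrictMono f ∧ @Continuous A B (Preorder.topology A) (Preorder.topology B) f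

/-- `A ⪯ B`: there is a LOTS embedding of `A` into `B`. -/
def LOTSEmbeds (A B : LinOrd.{0}) : Prop := ∃ f : A → B, IsLOTSEmbedding f

/-- There is an order embedding of `A` into `B`. -/
def OrderEmbeds (A B : LinOrd.{0}) : Prop := ∃ f : A → B, StrictMono f

/-- The class `𝒞`: at least two points; every open interval `(a, b)`, `a < b`, has cardinality
exactly `ℵ₁`; every point with something below it is the supremum of a strictly increasing
`ω`-sequence (countable cofinality), and every point with something above it is the infimum of a
strictly decreasing `ω`-sequence (countable coinitiality). -/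
structure InC (L : LinOrd.{0}) : Prop where
  /-- there are two points -/
  two : ∃ a b : L, a < b
  /-- `ℵ₁`-density -/
  dense : ∀ a b : L, a < b → #(Ioo a b) = ℵ₁
  /-- countable cofinality -/
  cof : ∀ x : L, (∃ y, y < x) → ∃ s : ℕ → L, StrictMono s ∧ IsLUB (range s) x
  /-- countable coinitiality -/
  coinit : ∀ x : L, (∃ y, x < y) → ∃ s : ℕ → L, StrictAnti s ∧ IsGLB (range s) x

/-- The countable chain condition: every family of pairwise disjoint nonempty open intervals
`(a, b)` of `L` is countable. -/
def CCC (L : LinOrd.{0}) : Prop :=
  ∀ F : Set (L × L), (∀ p ∈ F, (Ioo p.1 p.2).Nonempty) →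
    F.PairwiseDisjoint (fun p => Ioo p.1 p.2) → F.Countable

/-- The class `K` has a basis with at most `n` elements for the quasi-order `R`. -/
def HasBasis (n : ℕ) (K : LinOrd.{0} → Prop) (R : LinOrd.{0} → LinOrd.{0} → Prop) : Prop :=
  ∃ B : Fin n → LinOrd.{0}, (∀ i, K (B i)) ∧ ∀ L, K L → ∃ i, R (B i) L

/-- The class of uncountable linear orders. -/
def IsUncountable (L : LinOrd.{0}) : Prop := Uncountable L

/-- Baumgartner's axiom: any two `ℵ₁`-dense sets of reals are order isomorphic. -/
def BaumgartnerAxiom : Prop :=
  ∀ X Y : Set ℝ, (∀ a b : ℝ, a < b → #↥(X ∩ Ioo a b) = ℵ₁) →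
    (∀ a b : ℝ, a < b → #↥(Y ∩ Ioo a b) = ℵ₁) → Nonempty (X ≃o Y)

/-- Suslin's hypothesis: every dense linear order without end points which satisfies the countable
chain condition has a countable subset which meets every interval `(a, b)`, `a < b`. -/
def SuslinHypothesis : Prop :=
  ∀ L : LinOrd.{0}, DenselyOrdered L → NoMinOrder L → NoMaxOrder L → CCC L →
    ∃ D : Set L, D.Countable ∧ ∀ a b : L, a < b → ∃ d ∈ D, a < d ∧ d < b

end Pool.Agent.TH785.LT
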