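import Pool.Agent.TH785.LT.Fill

/-!
# `Fill A` embeds in every member of `𝒞` all of whose intervals contain `A`-indexed families of
disjoint intervals
-/

set_option autoImplicit false

namespace Pool.Agent.TH785.LT

open Cardinal Set

/-- between `u` and `v` there is an increasing `A`-indexed family of disjoint intervals -/
def Packs (A : Type) [LinearOrder A] {L : Type} [LinearOrder L] (u v : L) : Prop :=
  ∃ lam rho : A → L, (∀ a, u ≤ lam a ∧ lam a < rho a ∧ rho a ≤ v) ∧ ∀ a b, a < b → rho a ≤ lam b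

/-- data of one step of the construction -/
structure Pk (A L : Type) where
  /-- the points -/
  pt : A → L
  /-- sequences from below -/
  sm : A → ℕ → L
  /-- sequences from above -/
  sp : A → ℕ → L

namespace Pk

variable {A L : Type}

/-- left end of the region of position `x` at `a` -/
def lo (D : Pk A L) (a : A) (x : P) : L :=
  match ofLex x with
  | Sum.inl n => D.sm a n
  | Sum.inr y => match ofLex y with
    | Sum.inl _ => D.pt a
    | Sum.inr n => D.sp a (OrderDual.ofDual n + 1)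

/-- right end of the region of position `x` at `a` -/
def hi (D : Pk A L) (a : A) (x : P) : L :=
  match ofLex x with
  | Sum.inl n => D.sm a (n + 1)
  | Sum.inr y => match ofLex y with
    | Sum.inl _ => D.pt a
    | Sum.inr n => D.sp a (OrderDual.ofDual n)

theorem lo_l (D : Pk A L) (a : A) (n : ℕ) : D.lo a (P.l n) = D.sm a n := rfl
theorem lo_m (D : Pk A L) (a : A) : D.lo a P.m = D.pt a := rfl
theorem lo_r (D : Pk A L) (a : A) (n : ℕ) : D.lo a (P.r n) = D.sp a (n + 1) := rfl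
theorem hi_l (D : Pk A L) (a : A) (n : ℕ) : D.hi a (P.l n) = D.sm a (n + 1) := rfl
theorem hi_m (D : Pk A L) (a : A) : D.hi a P.m = D.pt a := rfl
theorem hi_r (D : Pk A L) (a : A) (n : ℕ) : D.hi a (P.r n) = D.sp a n := rfl

variable [LinearOrder A] [LinearOrder L]

/-- the data are good for the interval `(u, v)` -/
structure Good (D : Pk A L) (u v : L) : Prop where
  lt : ∀ a x, x ≠ P.m → D.lo a x < D.hi a x
  left : ∀ a x, u < D.lo a x
  right : ∀ a x, D.hi a x < v
  sep : ∀ a b x y, a < b → D.hi a x < D.lo b y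
  mono : ∀ a x y, x < y → D.hi a x ≤ D.lo a y
  up : ∀ a, ∀ b < D.pt a, ∃ n, b < D.sm a n
  down : ∀ a b, D.pt a < b → ∃ n, D.sp a n < b

end Pk

theorem exists_good {A : Type} [LinearOrder A] {L : LinOrd.{0}} (hL : InC L) {u v : L}
    (h : Packs A u v) : ∃ D : Pk A L, D.Good u v := by
  obtain ⟨lam, rho, h1, h2⟩ := h
  have h3 : ∀ a, ∃ x, lam a < x ∧ x < rho a := fun a => hL.between (h1 a).2.1
  choose pt hpt using h3
  have h4 := fun a => hL.seq_up (hpt a).1
  choose sm h5 h6 h7 h8 using h4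
  have h9 := fun a => hL.seq_down (hpt a).2
  choose sp k5 k6 k7 k8 using h9
  have hlo : ∀ a x, lam a < Pk.lo ⟨pt, sm, sp⟩ a x := by
    intro a x
    rcases x.cases with ⟨n, rfl⟩ | rfl | ⟨n, rfl⟩
    · exact h7 a n
    · exact (hpt a).1
    · exact (hpt a).1.trans (k8 a _)
  have hhi : ∀ a x, Pk.hi ⟨pt, sm, sp⟩ a x < rho a := by
    intro a x
    rcases x.cases with ⟨n, rfl⟩ | rfl | ⟨n, rfl⟩
    · exact (h8 a _).trans (hpt a).2
    · exact (hpt a).2
    · exact k7 a n
  refine ⟨⟨pt, sm, sp⟩, ?_, fun a x => (h1 a).1.trans_lt (hlo a x),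
    fun a x => (hhi a x).trans_le (h1 a).2.2, fun a b x y hab => ?_, ?_, ?_, ?_⟩
  · intro a x hx
    rcases x.cases with ⟨n, rfl⟩ | rfl | ⟨n, rfl⟩
    · exact h5 a (Nat.lt_succ_self n)
    · exact absurd rfl hx
    · exact k5 a (Nat.lt_succ_self n)
  · exact (hhi a x).trans ((h2 a b hab).trans_lt (hlo b y))
  · intro a x y hxy
    rcases x.cases with ⟨n, rfl⟩ | rfl | ⟨n, rfl⟩ <;> rcases y.cases with ⟨m, rfl⟩ | rfl | ⟨m, rfl⟩
    · rw [P.l_lt_l] at hxy
      exact (h5 a).monotone hxy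
    · exact (h8 a _).le
    · exact (h8 a _).le.trans (k8 a _).le
    · exact absurd hxy (not_lt.2 P.l_lt_m.le)
    · exact absurd hxy (lt_irrefl _)
    · exact (k8 a _).le
    · exact absurd hxy (not_lt.2 P.l_lt_r.le)
    · exact absurd hxy (not_lt.2 P.m_lt_r.le)
    · rw [P.r_lt_r] at hxy
      exact (k5 a).antitone hxy
  · intro a b hb
    by_contra hcon
    push Not at hcon
    exact absurd ((h6 a).2 (by rintro _ ⟨n, rfl⟩; exact hcon n)) (not_le.2 hb)
  · intro a b hb
    by_contra hcon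
    push Not at hcon
    exact absurd ((k6 a).2 (by rintro _ ⟨n, rfl⟩; exact hcon n)) (not_le.2 hb)

section

variable {A L : Type} [LinearOrder A] [LinearOrder L]

/-- the nested intervals along a sequence -/
def J (D : L → L → Pk A L) (p q : L) (f : ℕ → S A) : ℕ → L × L
  | 0 => (p, q)
  | i + 1 => ((D (J D p q f i).1 (J D p q f i).2).lo (ofLex (f i)).1 (ofLex (f i)).2,
      (D (J D p q f i).1 (J D p q f i).2).hi (ofLex (f i)).1 (ofLex (f i)).2)

theorem J_congr (D : L → L → Pk A L) (p q : L) {f g : ℕ → S A} {m : ℕ} (h : ∀ j < m, f j = g j) :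
    J D p q f m = J D p q g m := by
  induction m with
  | zero => rfl
  | succ m ih =>
    have h1 := ih (fun j hj => h j (by omega))
    simp only [J]
    rw [h1, h m (Nat.lt_succ_self m)]

/-- the embedding -/
noncomputable def F (D : L → L → Pk A L) (p q : L) (f : Fill A) : L :=
  (D (J D p q f.sq f.ix).1 (J D p q f.sq f.ix).2).pt (ofLex (f.sq f.ix)).1

variable {D : L → L → Pk A L} {p q : L}
  (hD : ∀ u v, p ≤ u → u < v → v ≤ q → (D u v).Good u v) (hpq : p < q)

include hD hpq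

theorem J_inv (f : Fill A) : ∀ m ≤ f.ix, p ≤ (J D p q f.sq m).1 ∧
    (J D p q f.sq m).1 < (J D p q f.sq m).2 ∧ (J D p q f.sq m).2 ≤ q := by
  intro m
  induction m with
  | zero => exact fun _ => ⟨le_rfl, hpq, le_rfl⟩
  | succ m ih =>
    intro hm
    obtain ⟨h1, h2, h3⟩ := ih (by omega)
    have hG := hD _ _ h1 h2 h3
    refine ⟨h1.trans (hG.left _ _).le, hG.lt _ _ (f.stop.1 m (by omega)),
      (hG.right _ _).le.trans h3⟩

theorem J_good (f : Fill A) {m : ℕ} (hm : m ≤ f.ix) :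
    (D (J D p q f.sq m).1 (J D p q f.sq m).2).Good (J D p q f.sq m).1 (J D p q f.sq m).2 := by
  obtain ⟨h1, h2, h3⟩ := J_inv hD hpq f m hm
  exact hD _ _ h1 h2 h3

theorem F_mem (f : Fill A) : ∀ d m, m + d = f.ix →
    (J D p q f.sq m).1 < F D p q f ∧ F D p q f < (J D p q f.sq m).2 := by
  intro d
  induction d with
  | zero =>
    intro m hm
    have hm' : m = f.ix := by omega
    subst hm'
    have hG := J_good hD hpq f le_rfl
    exact ⟨hG.left _ P.m, hG.right _ P.m⟩
  | succ d ih =>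
    intro m hm
    obtain ⟨h1, h2⟩ := ih (m + 1) (by omega)
    have hG := J_good hD hpq f (m := m) (by omega)
    exact ⟨(hG.left _ _).trans h1, h2.trans (hG.right _ _)⟩

theorem F_lo (f : Fill A) {m : ℕ} (hm : m ≤ f.ix) :
    (D (J D p q f.sq m).1 (J D p q f.sq m).2).lo (ofLex (f.sq m)).1 (ofLex (f.sq m)).2 ≤ F D p q f ∧
    (m < f.ix →
    (D (J D p q f.sq m).1 (J D p q f.sq m).2).lo (ofLex (f.sq m)).1 (ofLex (f.sq m)).2 <
      F D p q f) := by
  have h1 : m < f.ix →
      (D (J D p q f.sq m).1 (J D p q f.sq m).2).lo (ofLex (f.sq m)).1 (ofLex (f.sq m)).2 <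
        F D p q f := fun h => (F_mem hD hpq f (f.ix - (m + 1)) (m + 1) (by omega)).1
  refine ⟨?_, h1⟩
  rcases hm.lt_or_eq with h | h
  · exact (h1 h).le
  · subst h
    rw [f.stop.2.1]
    exact le_rfl

theorem F_hi (f : Fill A) {m : ℕ} (hm : m ≤ f.ix) :
    F D p q f ≤ (D (J D p q f.sq m).1 (J D p q f.sq m).2).hi (ofLex (f.sq m)).1 (ofLex (f.sq m)).2 ∧
    (m < f.ix → F D p q f <
    (D (J D p q f.sq m).1 (J D p q f.sq m).2).hi (ofLex (f.sq m)).1 (ofLex (f.sq m)).2) := by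
  have h1 : m < f.ix → F D p q f <
      (D (J D p q f.sq m).1 (J D p q f.sq m).2).hi (ofLex (f.sq m)).1 (ofLex (f.sq m)).2 :=
    fun h => (F_mem hD hpq f (f.ix - (m + 1)) (m + 1) (by omega)).2
  refine ⟨?_, h1⟩
  rcases hm.lt_or_eq with h | h
  · exact (h1 h).le
  · subst h
    rw [f.stop.2.1]
    exact le_rfl

theorem F_strictMono : StrictMono (F D p q : Fill A → L) := by
  intro f g hfg
  rw [Fill.lt_iff] at hfg
  obtain ⟨m, h1, h2⟩ := hfg
  have hmf : m ≤ f.ix := Fill.le_ix h1 h2.ne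
  have hmg : m ≤ g.ix := Fill.le_ix (fun j hj => (h1 j hj).symm) h2.ne'
  have hJ := J_congr D p q h1
  obtain ⟨f1, f2⟩ := F_hi hD hpq f hmf
  obtain ⟨g1, g2⟩ := F_lo hD hpq g hmg
  have hG := J_good hD hpq g hmg
  rw [← hJ] at g1 g2 hG
  have h4 : (toLex ((ofLex (f.sq m)).1, (ofLex (f.sq m)).2) : S A) <
      toLex ((ofLex (g.sq m)).1, (ofLex (g.sq m)).2) := h2
  rw [letter_lt_iff] at h4
  rcases h4 with h4 | ⟨h4, h5⟩
  · exact f1.trans_lt ((hG.sep _ _ _ _ h4).trans_le g1)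
  · have h6 := hG.mono (ofLex (f.sq m)).1 _ _ h5
    rw [h4] at h6 f1 f2
    rcases hmf.lt_or_eq with h7 | h7
    · exact (f2 h7).trans_le (h6.trans g1)
    · rcases hmg.lt_or_eq with h8 | h8
      · exact (f1.trans h6).trans_lt (g2 h8)
      · exfalso
        have h9 : (ofLex (f.sq m)).2 = P.m := by rw [h7]; exact f.stop.2.1
        have h10 : (ofLex (g.sq m)).2 = P.m := by rw [h8]; exact g.stop.2.1
        rw [h9, h10] at h5
        exact lt_irrefl _ h5

theorem F_lots (hne : Nonempty A) : IsLOTSEmbedding (F D p q : Fill A → L) := by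
  obtain ⟨c⟩ := hne
  have hmono := F_strictMono hD hpq (A := A)
  refine lots_of_between hmono ?_ ?_
  · intro f b hb
    obtain ⟨n, hn⟩ := (J_good hD hpq f le_rfl).up _ b hb
    refine ⟨f.ext' (P.l n) P.l_ne_m c, f.ext_l_lt n c, ?_⟩
    have h1 := (F_lo hD hpq (f.ext' (P.l n) P.l_ne_m c) (m := f.ix)
      (by rw [f.ext'_ix]; omega)).1
    have h2 : J D p q (f.ext' (P.l n) P.l_ne_m c).sq f.ix = J D p q f.sq f.ix :=
      J_congr D p q (fun j hj => f.ext'_lt _ _ _ hj)
    rw [h2, f.ext'_eq] at h1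
    exact hn.trans_le h1
  · intro f b hb
    obtain ⟨n, hn⟩ := (J_good hD hpq f le_rfl).down _ b hb
    refine ⟨f.ext' (P.r n) P.r_ne_m c, f.lt_ext_r n c, ?_⟩
    have h1 := (F_hi hD hpq (f.ext' (P.r n) P.r_ne_m c) (m := f.ix)
      (by rw [f.ext'_ix]; omega)).1
    have h2 : J D p q (f.ext' (P.r n) P.r_ne_m c).sq f.ix = J D p q f.sq f.ix :=
      J_congr D p q (fun j hj => f.ext'_lt _ _ _ hj)
    rw [h2, f.ext'_eq] at h1
    exact h1.trans_lt hn

end

/-- **The canonical order embeds.** -/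
theorem fill_embeds {A : Type} [LinearOrder A] (hne : Nonempty A) {L : LinOrd.{0}} (hL : InC L)
    {p q : L} (hpq : p < q) (h : ∀ u v : L, p ≤ u → u < v → v ≤ q → Packs A u v) :
    LOTSEmbeds (LinOrd.of (Fill A)) L := by
  classical
  have h1 : ∀ u v : L, ∃ D : Pk A L, p ≤ u → u < v → v ≤ q → D.Good u v := by
    intro u v
    by_cases h2 : p ≤ u ∧ u < v ∧ v ≤ q
    · obtain ⟨D, hD⟩ := exists_good hL (h u v h2.1 h2.2.1 h2.2.2)
      exact ⟨D, fun _ _ _ => hD⟩
    · exact ⟨⟨fun _ => p, fun _ _ => p, fun _ _ => p⟩, fun a b c => absurd ⟨a, b, c⟩ h2⟩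
  choose D hD using h1
  exact ⟨F D p q, F_lots hD hpq hne⟩

end Pool.Agent.TH785.LT
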