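import Pool.Agent.TH785.LT.Basic

/-!
# The canonical order `Fill A`

Every point of `A` is approached from the left by an increasing `ω`-sequence, and from the right by a
decreasing `ω`-sequence, of copies of the whole order. An element is a finite sequence
`(a₀, n₀), (a₁, n₁), …, a_k` where `n_i` says which copy at `a_i` is entered; it is coded by an
eventually constant sequence of elements of `A ×ₗ P`.
-/

set_option autoImplicit false

namespace Pool.Agent.TH785.LT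

open Cardinal Set

/-- positions at a point: `ω` (copies on the left), the point itself, `ω*` (copies on the right) -/
abbrev P : Type := ℕ ⊕ₗ (Unit ⊕ₗ ℕᵒᵈ)

/-- left position -/
def P.l (n : ℕ) : P := toLex (Sum.inl n)

/-- middle -/
def P.m : P := toLex (Sum.inr (toLex (Sum.inl ())))

/-- right position -/
def P.r (n : ℕ) : P := toLex (Sum.inr (toLex (Sum.inr (OrderDual.toDual n))))

instance : Countable P := inferInstanceAs (Countable (ℕ ⊕ (Unit ⊕ ℕ)))

theorem P.cases (x : P) : (∃ n, x = P.l n) ∨ x = P.m ∨ ∃ n, x = P.r n := by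
  rcases x with n | (x | n)
  · exact Or.inl ⟨n, rfl⟩
  · exact Or.inr (Or.inl rfl)
  · exact Or.inr (Or.inr ⟨n, rfl⟩)

theorem P.l_lt_l {n m : ℕ} : P.l n < P.l m ↔ n < m := Sum.Lex.inl_lt_inl_iff
theorem P.l_lt_m {n : ℕ} : P.l n < P.m := Sum.Lex.inl_lt_inr _ _
theorem P.l_lt_r {n m : ℕ} : P.l n < P.r m := Sum.Lex.inl_lt_inr _ _
theorem P.m_lt_r {n : ℕ} : P.m < P.r n := by
  unfold P.m P.r
  rw [Sum.Lex.inr_lt_inr_iff]
  exact Sum.Lex.inl_lt_inr _ _
theorem P.r_lt_r {n m : ℕ} : P.r n < P.r m ↔ m < n := by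
  unfold P.r
  rw [Sum.Lex.inr_lt_inr_iff, Sum.Lex.inr_lt_inr_iff]
  rfl

theorem P.l_ne_m {n : ℕ} : P.l n ≠ P.m := P.l_lt_m.ne
theorem P.r_ne_m {n : ℕ} : P.r n ≠ P.m := P.m_lt_r.ne'

theorem P.not_m_lt_l {n : ℕ} : ¬ P.m < P.l n := not_lt.2 P.l_lt_m.le
theorem P.lt_m {x : P} (h : x < P.m) : ∃ n, x = P.l n := by
  rcases x.cases with h1 | h1 | ⟨n, h1⟩
  · exact h1
  · exact absurd h (by rw [h1]; exact lt_irrefl _)
  · exact absurd h (by rw [h1]; exact not_lt.2 P.m_lt_r.le)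
theorem P.m_lt {x : P} (h : P.m < x) : ∃ n, x = P.r n := by
  rcases x.cases with ⟨n, h1⟩ | h1 | h1
  · exact absurd h (by rw [h1]; exact not_lt.2 P.l_lt_m.le)
  · exact absurd h (by rw [h1]; exact lt_irrefl _)
  · exact h1

variable (A : Type) [LinearOrder A]

/-- letters -/
abbrev S : Type := A ×ₗ P

variable {A}

/-- the sequence `f` stops at `k` -/
def Stop (f : ℕ → S A) (k : ℕ) : Prop :=
  (∀ i < k, (ofLex (f i)).2 ≠ P.m) ∧ (ofLex (f k)).2 = P.m ∧ ∀ i, k ≤ i → f i = f k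

theorem Stop.unique {f : ℕ → S A} {k l : ℕ} (hk : Stop f k) (hl : Stop f l) : k = l := by
  rcases lt_trichotomy k l with h | h | h
  · exact absurd hk.2.1 (hl.1 k h)
  · exact h
  · exact absurd hl.2.1 (hk.1 l h)

variable (A)

/-- The canonical order. -/
def Fill : Type := {f : Lex (ℕ → S A) // ∃ k, Stop (ofLex f) k}

noncomputable instance : LinearOrder (Fill A) := inferInstanceAs (LinearOrder {f : Lex (ℕ → S A) // _})

variable {A}

/-- the underlying sequence -/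
def Fill.sq (f : Fill A) : ℕ → S A := ofLex f.1

/-- the stopping index -/
noncomputable def Fill.ix (f : Fill A) : ℕ := f.2.choose

theorem Fill.stop (f : Fill A) : Stop f.sq f.ix := f.2.choose_spec

theorem Fill.lt_iff {f g : Fill A} : f < g ↔ ∃ m, (∀ j < m, f.sq j = g.sq j) ∧ f.sq m < g.sq m :=
  Iff.rfl

theorem Fill.ext {f g : Fill A} (h : f.sq = g.sq) : f = g := Subtype.ext h

/-- the first difference is not beyond the stopping index -/
theorem Fill.le_ix {f g : Fill A} {m : ℕ} (h1 : ∀ j < m, f.sq j = g.sq j) (h2 : f.sq m ≠ g.sq m) :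
    m ≤ f.ix := by
  by_contra hcon
  push Not at hcon
  have h3 := f.stop
  have h4 := g.stop
  have h5 : Stop g.sq f.ix := by
    refine ⟨fun i hi => ?_, ?_, ?_⟩
    · rw [← h1 i (hi.trans hcon)]
      exact h3.1 i hi
    · rw [← h1 _ hcon]
      exact h3.2.1
    · have h6 : (ofLex (g.sq f.ix)).2 = P.m := by
        rw [← h1 _ hcon]
        exact h3.2.1
      have h7 : g.ix ≤ f.ix := by
        by_contra h
        push Not at h
        exact h4.1 _ h h6
      intro i hi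
      rw [h4.2.2 i (h7.trans hi), h4.2.2 _ h7]
  apply h2
  rw [h3.2.2 m hcon.le, h5.2.2 m hcon.le, h1 _ hcon]

/-- Replace the end of `f` at its stopping index by the position `x` and one more point `c`. -/
noncomputable def Fill.ext' (f : Fill A) (x : P) (hx : x ≠ P.m) (c : A) : Fill A :=
  ⟨toLex fun i => if i < f.ix then f.sq i else if i = f.ix then toLex ((ofLex (f.sq f.ix)).1, x)
    else toLex (c, P.m), f.ix + 1, by
      refine ⟨fun i hi => ?_, ?_, fun i hi => ?_⟩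
      · rcases Nat.lt_succ_iff_lt_or_eq.1 hi with h | h
        · simp only [ofLex_toLex, h, if_true]
          exact f.stop.1 i h
        · subst h
          simp [hx]
      · simp
      · have h1 : ¬ i < f.ix := by omega
        have h2 : i ≠ f.ix := by omega
        simp [h1, h2]⟩

theorem Fill.ext'_lt (f : Fill A) (x : P) (hx : x ≠ P.m) (c : A) {i : ℕ} (hi : i < f.ix) :
    (f.ext' x hx c).sq i = f.sq i := by
  simp [Fill.ext', Fill.sq, hi]

theorem Fill.ext'_eq (f : Fill A) (x : P) (hx : x ≠ P.m) (c : A) :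
    (f.ext' x hx c).sq f.ix = toLex ((ofLex (f.sq f.ix)).1, x) := by
  simp [Fill.ext', Fill.sq]

theorem Fill.ext'_succ (f : Fill A) (x : P) (hx : x ≠ P.m) (c : A) :
    (f.ext' x hx c).sq (f.ix + 1) = toLex (c, P.m) := by
  simp [Fill.ext', Fill.sq]

theorem Fill.ext'_ix (f : Fill A) (x : P) (hx : x ≠ P.m) (c : A) :
    (f.ext' x hx c).ix = f.ix + 1 := by
  refine (f.ext' x hx c).stop.unique ?_
  refine ⟨fun i hi => ?_, ?_, fun i hi => ?_⟩
  · rcases Nat.lt_succ_iff_lt_or_eq.1 hi with h | h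
    · rw [f.ext'_lt x hx c h]
      exact f.stop.1 i h
    · subst h
      rw [f.ext'_eq]
      exact hx
  · rw [f.ext'_succ]
    rfl
  · have h1 : ¬ i < f.ix := by omega
    have h2 : i ≠ f.ix := by omega
    simp [Fill.ext', Fill.sq, h1, h2]

theorem Fill.end_eq (f : Fill A) : f.sq f.ix = toLex ((ofLex (f.sq f.ix)).1, P.m) := by
  have h := f.stop.2.1
  rw [← h]
  rfl

theorem letter_lt_iff {a b : A} {x y : P} :
    ((toLex (a, x) : S A) < toLex (b, y)) ↔ a < b ∨ a = b ∧ x < y := Prod.Lex.toLex_lt_toLex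

theorem Fill.ext_l_lt (f : Fill A) (n : ℕ) (c : A) : f.ext' (P.l n) P.l_ne_m c < f := by
  rw [Fill.lt_iff]
  refine ⟨f.ix, fun j hj => f.ext'_lt _ _ _ hj, ?_⟩
  rw [f.ext'_eq, f.end_eq, letter_lt_iff]
  exact Or.inr ⟨rfl, P.l_lt_m⟩

theorem Fill.lt_ext_r (f : Fill A) (n : ℕ) (c : A) : f < f.ext' (P.r n) P.r_ne_m c := by
  rw [Fill.lt_iff]
  refine ⟨f.ix, fun j hj => (f.ext'_lt _ _ _ hj).symm, ?_⟩
  rw [f.ext'_eq, f.end_eq, letter_lt_iff]
  exact Or.inr ⟨rfl, P.m_lt_r⟩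

theorem Fill.ext_l_mono (f : Fill A) (c : A) : StrictMono fun n => f.ext' (P.l n) P.l_ne_m c := by
  intro n m hnm
  show f.ext' (P.l n) P.l_ne_m c < f.ext' (P.l m) P.l_ne_m c
  rw [Fill.lt_iff]
  refine ⟨f.ix, fun j hj => by rw [f.ext'_lt _ _ _ hj, f.ext'_lt _ _ _ hj], ?_⟩
  rw [f.ext'_eq, f.ext'_eq, letter_lt_iff]
  exact Or.inr ⟨rfl, P.l_lt_l.2 hnm⟩

theorem Fill.ext_r_anti (f : Fill A) (c : A) : StrictAnti fun n => f.ext' (P.r n) P.r_ne_m c := by
  intro n m hnm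
  show f.ext' (P.r m) P.r_ne_m c < f.ext' (P.r n) P.r_ne_m c
  rw [Fill.lt_iff]
  refine ⟨f.ix, fun j hj => by rw [f.ext'_lt _ _ _ hj, f.ext'_lt _ _ _ hj], ?_⟩
  rw [f.ext'_eq, f.ext'_eq, letter_lt_iff]
  exact Or.inr ⟨rfl, P.r_lt_r.2 hnm⟩

theorem Fill.exists_l {y f : Fill A} (h : y < f) :
    ∃ n, ∀ c, y < f.ext' (P.l n) P.l_ne_m c := by
  rw [Fill.lt_iff] at h
  obtain ⟨m, h1, h2⟩ := h
  have hm : m ≤ f.ix := Fill.le_ix (fun j hj => (h1 j hj).symm) h2.ne'
  rcases hm.lt_or_eq with h3 | h3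
  · refine ⟨0, fun c => ?_⟩
    rw [Fill.lt_iff]
    refine ⟨m, fun j hj => ?_, ?_⟩
    · rw [f.ext'_lt _ _ _ (hj.trans h3)]
      exact h1 j hj
    · rw [f.ext'_lt _ _ _ h3]
      exact h2
  · subst h3
    have h4 : toLex ((ofLex (y.sq f.ix)).1, (ofLex (y.sq f.ix)).2) = y.sq f.ix := rfl
    rw [f.end_eq, ← h4, letter_lt_iff] at h2
    have h5 : ∃ n, ((ofLex (y.sq f.ix)).1 < (ofLex (f.sq f.ix)).1 ∨
        (ofLex (y.sq f.ix)).1 = (ofLex (f.sq f.ix)).1 ∧ (ofLex (y.sq f.ix)).2 < P.l n) := by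
      rcases h2 with h2 | ⟨h2, h5⟩
      · exact ⟨0, Or.inl h2⟩
      · obtain ⟨n, hn⟩ := P.lt_m h5
        refine ⟨n + 1, Or.inr ⟨h2, ?_⟩⟩
        rw [hn, P.l_lt_l]
        omega
    obtain ⟨n, hn⟩ := h5
    refine ⟨n, fun c => ?_⟩
    rw [Fill.lt_iff]
    refine ⟨f.ix, fun j hj => ?_, ?_⟩
    · rw [f.ext'_lt _ _ _ hj]
      exact h1 j hj
    · rw [f.ext'_eq, ← h4, letter_lt_iff]
      exact hn

theorem Fill.exists_r {y f : Fill A} (h : f < y) :
    ∃ n, ∀ c, f.ext' (P.r n) P.r_ne_m c < y := by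
  rw [Fill.lt_iff] at h
  obtain ⟨m, h1, h2⟩ := h
  have hm : m ≤ f.ix := Fill.le_ix h1 h2.ne
  rcases hm.lt_or_eq with h3 | h3
  · refine ⟨0, fun c => ?_⟩
    rw [Fill.lt_iff]
    refine ⟨m, fun j hj => ?_, ?_⟩
    · rw [f.ext'_lt _ _ _ (hj.trans h3)]
      exact h1 j hj
    · rw [f.ext'_lt _ _ _ h3]
      exact h2
  · subst h3
    have h4 : toLex ((ofLex (y.sq f.ix)).1, (ofLex (y.sq f.ix)).2) = y.sq f.ix := rfl
    rw [f.end_eq, ← h4, letter_lt_iff] at h2
    have h5 : ∃ n, ((ofLex (f.sq f.ix)).1 < (ofLex (y.sq f.ix)).1 ∨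
        (ofLex (f.sq f.ix)).1 = (ofLex (y.sq f.ix)).1 ∧ P.r n < (ofLex (y.sq f.ix)).2) := by
      rcases h2 with h2 | ⟨h2, h5⟩
      · exact ⟨0, Or.inl h2⟩
      · obtain ⟨n, hn⟩ := P.m_lt h5
        refine ⟨n + 1, Or.inr ⟨h2, ?_⟩⟩
        rw [hn, P.r_lt_r]
        omega
    obtain ⟨n, hn⟩ := h5
    refine ⟨n, fun c => ?_⟩
    rw [Fill.lt_iff]
    refine ⟨f.ix, fun j hj => ?_, ?_⟩
    · rw [f.ext'_lt _ _ _ hj]
      exact h1 j hj
    · rw [f.ext'_eq, ← h4, letter_lt_iff]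
      exact hn

theorem Fill.ext_inj (f : Fill A) (x : P) (hx : x ≠ P.m) {c d : A}
    (h : f.ext' x hx c = f.ext' x hx d) : c = d := by
  have h1 := congrArg (fun g : Fill A => g.sq (f.ix + 1)) h
  simp only [f.ext'_succ] at h1
  have h2 := congrArg (fun s : S A => (ofLex s).1) h1
  exact h2

theorem mk_fill_le (hA : #A = ℵ₁) : #(Fill A) ≤ ℵ₁ := by
  have h1 : Function.Injective fun f : Fill A => List.ofFn (fun i : Fin (f.ix + 1) => f.sq i) := by
    intro f g h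
    have h2 : f.ix = g.ix := by
      have := congrArg List.length h
      simpa using this
    apply Fill.ext
    funext i
    have h3 : ∀ j ≤ f.ix, f.sq j = g.sq j := by
      intro j hj
      have h4 := congrArg (fun l : List (S A) => l[j]?) h
      have hj' : j < f.ix + 1 := by omega
      have hj'' : j < g.ix + 1 := by omega
      simp only [List.getElem?_ofFn, hj', hj'', dif_pos] at h4
      exact Option.some.inj h4
    rcases le_total i f.ix with hi | hi
    · exact h3 i hi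
    · rw [f.stop.2.2 i hi, g.stop.2.2 i (h2 ▸ hi), h3 _ le_rfl, h2]
  refine (Cardinal.mk_le_of_injective h1).trans ((Cardinal.mk_list_le_max _).trans (max_le ?_ ?_))
  · exact (aleph0_lt_aleph_one).le
  · have h2 : #(S A) = #(A × P) := rfl
    rw [h2, Cardinal.mk_prod, Cardinal.lift_id, Cardinal.lift_id, hA]
    have h3 : #P ≤ ℵ₁ := (Cardinal.mk_le_aleph0 (α := P)).trans aleph0_lt_aleph_one.le
    exact (mul_le_mul' le_rfl h3).trans (Cardinal.mul_eq_self aleph0_lt_aleph_one.le).le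

theorem fill_inC (hA : #A = ℵ₁) : InC (LinOrd.of (Fill A)) := by
  have hne : Nonempty A := by
    rw [← Cardinal.mk_ne_zero_iff, hA]
    exact (aleph_pos 1).ne'
  obtain ⟨c⟩ := hne
  have hlow : ∀ f g : Fill A, f < g → ℵ₁ ≤ #(Ioo f g) := by
    intro f g hfg
    obtain ⟨n, hn⟩ := Fill.exists_r hfg
    rw [← hA]
    refine Cardinal.mk_le_of_injective (f := fun c => (⟨f.ext' (P.r n) P.r_ne_m c,
      f.lt_ext_r n c, hn c⟩ : Ioo f g)) ?_
    intro a b hab
    exact f.ext_inj (P.r n) P.r_ne_m (congrArg Subtype.val hab)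
  refine ⟨?_, ?_, ?_, ?_⟩
  · let f : Fill A := ⟨toLex fun _ => toLex (c, P.m), 0, fun i hi => by omega, rfl, fun i _ => rfl⟩
    exact ⟨f, f.ext' (P.r 0) P.r_ne_m c, f.lt_ext_r 0 c⟩
  · intro f g hfg
    exact le_antisymm ((Cardinal.mk_set_le _).trans (mk_fill_le hA)) (hlow f g hfg)
  · intro f _
    refine ⟨fun n => f.ext' (P.l n) P.l_ne_m c, f.ext_l_mono c, ?_, ?_⟩
    · rintro _ ⟨n, rfl⟩
      exact (f.ext_l_lt n c).le
    · intro z hz
      by_contra hcon
      push Not at hcon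
      obtain ⟨n, hn⟩ := Fill.exists_l hcon
      exact absurd (hz ⟨n, rfl⟩) (not_le.2 (hn c))
  · intro f _
    refine ⟨fun n => f.ext' (P.r n) P.r_ne_m c, f.ext_r_anti c, ?_, ?_⟩
    · rintro _ ⟨n, rfl⟩
      exact (f.lt_ext_r n c).le
    · intro z hz
      by_contra hcon
      push Not at hcon
      obtain ⟨n, hn⟩ := Fill.exists_r hcon
      exact absurd (hz ⟨n, rfl⟩) (not_le.2 (hn c))

end Pool.Agent.TH785.LT
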