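import Pool.Agent.TH785.LT.Embed

/-!
# The reduction theorem
-/

set_option autoImplicit false

namespace Pool.Agent.TH785.LT

open Cardinal Set

theorem Packs.mono {A : Type} [LinearOrder A] {L : Type} [LinearOrder L] {u v u' v' : L}
    (h : Packs A u v) (h1 : u' ≤ u) (h2 : v ≤ v') : Packs A u' v' := by
  obtain ⟨lam, rho, h3, h4⟩ := h
  exact ⟨lam, rho, fun a => ⟨h1.trans (h3 a).1, (h3 a).2.1, (h3 a).2.2.trans h2⟩, h4⟩

/-- An interval which is not ccc contains a copy of one of the orders of a basis. -/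
theorem ccc_or_packs {L : LinOrd.{0}} (hL : InC L) {u v : L} (huv : u < v) {n : ℕ}
    {B : Fin n → LinOrd.{0}} (hB : ∀ i, IsUncountable (B i))
    (hB' : ∀ M : LinOrd.{0}, IsUncountable M → ∃ i, OrderEmbeds (B i) M) :
    CCC (LinOrd.of (Ioo u v)) ∨ ∃ i, #(B i) = ℵ₁ ∧ Packs (B i) u v := by
  classical
  by_cases hc : CCC (LinOrd.of (Ioo u v))
  · exact Or.inl hc
  right
  unfold CCC at hc
  push Not at hc
  obtain ⟨G, h1, h2, h3⟩ := hc
  -- left end points
  let W : Set L := (fun p : (Ioo u v) × (Ioo u v) => (p.1 : L)) '' G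
  have hlt : ∀ p ∈ G, (p.1 : L) < (p.2 : L) := by
    intro p hp
    obtain ⟨c, hc⟩ := h1 p hp
    exact (show (p.1 : L) < (c : L) from hc.1).trans hc.2
  have hsep : ∀ p ∈ G, ∀ q ∈ G, p ≠ q → (p.1 : L) ≤ (q.1 : L) → (p.2 : L) ≤ (q.1 : L) := by
    intro p hp q hq hne hle
    by_contra hcon
    push Not at hcon
    have h4 : Disjoint (Ioo p.1 p.2) (Ioo q.1 q.2) := h2 hp hq hne
    have h5 : max (p.1 : L) (q.1 : L) < min (p.2 : L) (q.2 : L) :=
      max_lt (lt_min (hlt p hp) (hle.trans_lt (hlt q hq))) (lt_min hcon (hlt q hq))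
    obtain ⟨c, hc1, hc2⟩ := hL.between h5
    have e1 : (p.1 : L) < c := (le_max_left _ _).trans_lt hc1
    have e2 : (q.1 : L) < c := (le_max_right _ _).trans_lt hc1
    have e3 : c < (p.2 : L) := hc2.trans_le (min_le_left _ _)
    have e4 : c < (q.2 : L) := hc2.trans_le (min_le_right _ _)
    have h6 := Set.disjoint_left.1 h4
    exact @h6 ⟨c, p.1.2.1.trans e1, e3.trans p.2.2.2⟩ ⟨e1, e3⟩ ⟨e2, e4⟩
  have hinj : InjOn (fun p : (Ioo u v) × (Ioo u v) => (p.1 : L)) G := by
    intro p hp q hq hpq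
    by_contra hne
    have h4 := hsep p hp q hq hne (le_of_eq hpq)
    have hpq' : (p.1 : L) = (q.1 : L) := hpq
    rw [← hpq'] at h4
    exact absurd h4 (not_le.2 (hlt p hp))
  have hWunc : Uncountable W := by
    rw [← not_countable_iff]
    intro hcount
    apply h3
    have : (W : Set L).Countable := hcount
    exact countable_of_injective_of_countable_image hinj this
  obtain ⟨i, f, hf⟩ := hB' (LinOrd.of W) hWunc
  have hW : ∀ w : W, ∃ p ∈ G, (p.1 : L) = w := fun w => by
    obtain ⟨p, hp, h⟩ := w.2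
    exact ⟨p, hp, h⟩
  choose g hgG hg using hW
  refine ⟨i, ?_, fun a => ((f a : W) : L), fun a => ((g (f a)).2 : L), ?_, ?_⟩
  · apply le_antisymm
    · have h4 : #(B i) ≤ #(Ioo u v) := by
        refine Cardinal.mk_le_of_injective (f := fun a => (g (f a)).1) ?_
        intro a b hab
        apply hf.injective
        apply Subtype.ext
        have := congrArg Subtype.val hab
        simpa [hg] using this
      exact h4.trans (hL.dense u v huv).le
    · have h5 : ℵ₀ < #(B i) := Cardinal.aleph0_lt_mk_iff.2 (hB i)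
      rw [← Order.succ_le_iff, Cardinal.succ_aleph0] at h5
      exact h5
  · intro a
    refine ⟨?_, ?_, (g (f a)).2.2.2.le⟩
    · show u ≤ ((f a : W) : L)
      rw [← hg]
      exact (g (f a)).1.2.1.le
    · show ((f a : W) : L) < _
      rw [← hg]
      exact hlt _ (hgG _)
  · intro a b hab
    have h4 : ((f a : W) : L) < ((f b : W) : L) := hf hab
    have h5 := hsep (g (f a)) (hgG _) (g (f b)) (hgG _) (by
      intro h
      have := congrArg (fun p : (Ioo u v) × (Ioo u v) => (p.1 : L)) h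
      simp only [hg] at this
      exact h4.ne this) (by rw [hg, hg]; exact h4.le)
    rw [hg] at h5
    exact h5

/-- Some interval is homogeneous. -/
theorem homogeneous {L : LinOrd.{0}} (hL : InC L) {n : ℕ} (T : Fin n → L → L → Prop)
    (hT : ∀ i u v u' v', u' ≤ u → v ≤ v' → T i u v → T i u' v')
    (hT' : ∀ u v : L, u < v → ∃ i, T i u v) :
    ∃ i, ∃ u v : L, u < v ∧ ∀ u' v' : L, u ≤ u' → u' < v' → v' ≤ v → T i u' v' := by
  classical
  by_contra hcon
  push Not at hcon
  have key : ∀ k : ℕ, k ≤ n → ∃ u v : L, u < v ∧ ∀ i : Fin n, i.1 < k → ¬ T i u v := by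
    intro k
    induction k with
    | zero =>
      intro _
      obtain ⟨a, b, hab⟩ := hL.two
      exact ⟨a, b, hab, fun i hi => absurd hi (Nat.not_lt_zero _)⟩
    | succ k ih =>
      intro hk
      obtain ⟨u, v, huv, h⟩ := ih (by omega)
      obtain ⟨u', v', h1, h2, h3, h4⟩ := hcon ⟨k, by omega⟩ u v huv
      refine ⟨u', v', h2, fun i hi => ?_⟩
      rcases Nat.lt_succ_iff_lt_or_eq.1 hi with h5 | h5
      · exact fun h6 => h i h5 (hT i u' v' u v h1 h3 h6)
      · have h6 : i = ⟨k, by omega⟩ := Fin.ext h5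
        rw [h6]
        exact h4
  obtain ⟨u, v, huv, h⟩ := key n le_rfl
  obtain ⟨i, hi⟩ := hT' u v huv
  exact h i i.2 hi

/-- **Reduction.** -/
theorem reduction {n m : ℕ} (h1 : HasBasis n IsUncountable OrderEmbeds)
    (h2 : HasBasis m (fun L => InC L ∧ CCC L) LOTSEmbeds) : HasBasis (n + m) InC LOTSEmbeds := by
  classical
  obtain ⟨B, hB, hB'⟩ := h1
  obtain ⟨E, hE, hE'⟩ := h2
  -- a fixed element
  obtain ⟨W, hW⟩ : ∃ W : LinOrd.{0}, #W = ℵ₁ := ⟨LinOrd.of (Cardinal.aleph 1).ord.ToType, by simp⟩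
  let G : Fin n → LinOrd.{0} := fun i => if #(B i) = ℵ₁ then LinOrd.of (Fill (B i)) else
    LinOrd.of (Fill W)
  have hG : ∀ i, InC (G i) := by
    intro i
    by_cases h : #(B i) = ℵ₁
    · simp only [G, h, if_true]
      exact fill_inC h
    · simp only [G, h, if_false]
      exact fill_inC hW
  refine ⟨Fin.append G E, fun i => ?_, fun L hL => ?_⟩
  · refine Fin.addCases (fun j => ?_) (fun j => ?_) i
    · rw [Fin.append_left]
      exact hG j
    · rw [Fin.append_right]
      exact (hE j).1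
  · by_cases hc : ∃ u v : L, u < v ∧ CCC (LinOrd.of (Ioo u v))
    · obtain ⟨u, v, huv, h⟩ := hc
      obtain ⟨j, hj⟩ := hE' _ ⟨hL.Ioo_inC huv, h⟩
      refine ⟨Fin.natAdd n j, ?_⟩
      rw [Fin.append_right]
      exact hj.trans hL.Ioo_embeds
    · push Not at hc
      obtain ⟨i, u, v, huv, h⟩ := homogeneous hL (fun i u v => #(B i) = ℵ₁ ∧ Packs (B i) u v)
        (fun i u v u' v' a b c => ⟨c.1, c.2.mono a b⟩) (fun u v huv =>
          (ccc_or_packs hL huv hB hB').resolve_left (hc u v huv))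
      refine ⟨Fin.castAdd m i, ?_⟩
      rw [Fin.append_left]
      have h3 := (h u v le_rfl huv le_rfl).1
      simp only [G, h3, if_true]
      refine fill_embeds ?_ hL huv (fun a b h4 h5 h6 => (h a b h4 h5 h6).2)
      rw [← Cardinal.mk_ne_zero_iff, h3]
      exact (aleph_pos 1).ne'

end Pool.Agent.TH785.LT
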